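import Mathlib

set_option autoImplicit false

namespace Pool.Agent.Results.MP_b41bf9_ag.NoMax

open MvPolynomial

section
variable {F : Type} [Field F] (K : Type) [Field K] [Algebra F K] {n : ℕ}
  (T : Fin n → MvPolynomial (Fin n) F)

/-- The action on `K`-points of the polynomial map with components `T i`. -/
noncomputable def act (x : Fin n → K) : Fin n → K := fun i => aeval x (T i)

/-- Every irreducible component (minimal prime `p` of `I`) has a fixed point `P` that all its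
geometric points reach. -/
def GN (I : Ideal (MvPolynomial (Fin n) F)) : Prop :=
  ∀ p ∈ I.minimalPrimes, ∃ P, act K T P = P ∧
    ∀ y ∈ zeroLocus K p, ∃ k, 1 ≤ k ∧ (act K T)^[k] y = P
end

/-- The map `(x, a, z) ↦ a (x - z) • (x a, a z, z ^ 2)`. -/
noncomputable def T (F : Type) [Field F] : Fin 3 → MvPolynomial (Fin 3) F :=
  ![X 1 * (X 0 - X 2) * (X 0 * X 1), X 1 * (X 0 - X 2) * (X 1 * X 2), X 1 * (X 0 - X 2) * X 2 ^ 2]

variable {F K : Type} [Field F] [Field K] [Algebra F K]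

/-- The scaling cocycle. -/
def c (x a : K) : ℕ → K
  | 0 => 1
  | k + 1 => c x a k ^ 4 * a * (x * a ^ k - 1)

theorem orbit (l x a : K) (k : ℕ) : (act K (T F))^[k] ![l * x, l * a, l] =
    ![l ^ 4 ^ k * c x a k * (x * a ^ k), l ^ 4 ^ k * c x a k * a, l ^ 4 ^ k * c x a k] := by
  induction k with
  | zero => simp [c]
  | succ k ih =>
    rw [Function.iterate_succ_apply', ih]
    ext i
    fin_cases i <;> simp [act, T, c, pow_succ 4 k, pow_mul] <;> ring

theorem c_ne {x a : K} (ha : a ≠ 0) (k : ℕ) (h : ∀ i < k, x * a ^ i ≠ 1) : c x a k ≠ 0 := by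
  induction k with
  | zero => simp [c]
  | succ k ih =>
    exact mul_ne_zero (mul_ne_zero (pow_ne_zero _ (ih fun i hi => h i (by omega))) ha)
      (sub_ne_zero.2 (h k (by omega)))

theorem rep {y : Fin 3 → K} (h : y 2 ≠ 0) : ∃ l x a, y = ![l * x, l * a, l] :=
  ⟨y 2, y 0 / y 2, y 1 / y 2, by ext i; fin_cases i <;> simp [mul_div_cancel₀, h]⟩

theorem last (m : ℕ) (y : Fin 3 → K) (h : y 2 = 0) : (act K (T F))^[m] y 2 = 0 := by
  induction m with
  | zero => exact h
  | succ m ih =>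
    rw [Function.iterate_succ_apply']
    generalize (act K (T F))^[m] y = z at ih
    simp [act, T, ih]

theorem poly (g : MvPolynomial (Fin 3) F) (w : Fin 3 → ℕ) (v : Fin 3 → K) :
    ∃ p : Polynomial K, (∀ s, p.eval s = aeval (fun i => v i * s ^ w i) g) ∧
      ∀ d ∈ g.support, (∀ e ∈ g.support, ∑ i, e i * w i = ∑ i, d i * w i → e = d) →
        (∀ i, v i ≠ 0) → p ≠ 0 := by
  refine ⟨∑ e ∈ g.support, Polynomial.monomial (∑ i, e i * w i)
    (algebraMap F K (g.coeff e) * ∏ i, v i ^ e i), fun s => ?_, fun d hd h hv h0 => ?_⟩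
  · rw [aeval_def, eval₂_eq', Polynomial.eval_finsetSum]
    refine Finset.sum_congr rfl fun e _ => ?_
    simp only [Polynomial.eval_monomial, mul_pow, ← pow_mul, Finset.prod_mul_distrib,
      Finset.prod_pow_eq_pow_sum, mul_assoc, mul_comm (w _)]
  · have := congrArg (Polynomial.coeff · (∑ i, d i * w i)) h0
    simp only [Polynomial.finsetSum_coeff, Polynomial.coeff_monomial] at this
    rw [Finset.sum_eq_single d (fun e he hne => if_neg fun h' => hne (h e he h'))
      (fun h => absurd hd h)] at this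
    simp [mem_support_iff.1 hd, Finset.prod_eq_zero_iff, hv] at this

theorem dm {a b c d n : ℕ} (h : a + n * b = c + n * d) (ha : a < n) (hc : c < n) :
    a = c ∧ b = d := by
  have h1 := congrArg (· % n) h
  simp only [Nat.add_mul_mod_self_left, Nat.mod_eq_of_lt ha, Nat.mod_eq_of_lt hc] at h1
  subst h1
  exact ⟨rfl, Nat.eq_of_mul_eq_mul_left (by omega) (Nat.add_left_cancel h)⟩

theorem zero_it (k : ℕ) : (act K (T F))^[k] 0 = 0 :=
  Function.iterate_fixed (by ext i; fin_cases i <;> simp [act, T]) k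

theorem main [Finite F] [IsAlgClosed K] [Algebra.IsIntegral F K] (I : Ideal (MvPolynomial (Fin 3) F))
    (hI : GN K (T F) I) : ∃ J, GN K (T F) J ∧ ∀ k m : ℕ,
      ¬ zeroLocus K J ⊆ (act K (T F))^[k] ⁻¹' ((act K (T F))^[m] '' zeroLocus K I) := by
  obtain ⟨g, hg, g0⟩ : ∃ g ∈ I, g ≠ 0 := by
    by_contra h
    obtain rfl : I = ⊥ := (Submodule.eq_bot_iff _).2 (by simpa using h)
    obtain ⟨P, -, hP⟩ := hI ⊥ (by rw [Ideal.minimalPrimes_eq_subsingleton_self]; rfl)
    obtain ⟨k, -, h1⟩ := hP 0 (by simp)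
    obtain ⟨j, -, h2⟩ := hP ![1 * 0, 1 * 1, 1] (by simp)
    rw [← h1, zero_it, orbit] at h2
    exact c_ne (x := (0 : K)) one_ne_zero j (by simp) (by simpa using congrFun h2 2)
  obtain ⟨p, hp⟩ := CharP.exists F
  have pp := Fact.mk (CharP.char_is_prime F p)
  have := charP_of_injective_algebraMap (algebraMap F K).injective p
  obtain ⟨q, hq⟩ : ∃ q, p ^ (g.totalDegree + 1) = q + 1 :=
    Nat.exists_eq_succ_of_ne_zero (pow_pos pp.out.pos _).ne'
  have hD : g.totalDegree + 1 < q + 1 := hq ▸ Nat.lt_pow_self pp.out.one_lt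
  have hJ : ∀ y : Fin 3 → K, y ∈ zeroLocus K (Ideal.span {X 0 ^ (q + 1) - X 1 * X 2 ^ q} :
      Ideal (MvPolynomial (Fin 3) F)) ↔ y 0 ^ (q + 1) = y 1 * y 2 ^ q := fun y => by
    simp [zeroLocus_span, sub_eq_zero]
  refine ⟨Ideal.span {X 0 ^ (q + 1) - X 1 * X 2 ^ q}, fun P hP => ⟨0, zero_it 1, fun y hy => ?_⟩,
    fun k m h => ?_⟩
  · replace hy := (hJ y).1 (zeroLocus_anti_mono hP.1.2 hy)
    by_cases h0 : y 0 = 0 ∧ (y 1 = 0 ∨ y 2 = 0)
    · refine ⟨1, le_rfl, funext fun i => ?_⟩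
      rcases h0 with ⟨h0, h1 | h1⟩ <;> fin_cases i <;> simp [act, T, h0, h1]
    have h2 : y 2 ≠ 0 := fun h2 => h0 ⟨?_, .inr h2⟩
    swap
    · simpa [h2, show q ≠ 0 by omega] using hy
    obtain ⟨l, x, a, rfl⟩ := rep h2
    have hl : l ≠ 0 := h2
    obtain rfl : a = x ^ (q + 1) := by
      refine mul_left_cancel₀ (pow_ne_zero (q + 1) hl) ?_
      simp at hy
      linear_combination -hy
    have hx : x ≠ 0 := fun hx => h0 (by simp [hx])
    obtain ⟨r, hr, h⟩ : ∃ r, 0 < r ∧ x ^ r = 1 := by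
      have : Finite (IntermediateField.adjoin F {x}) := by
        have := IntermediateField.adjoin.finiteDimensional (Algebra.IsIntegral.isIntegral (R := F) x)
        exact Module.finite_of_finite F
      obtain ⟨k, hk, h⟩ := isOfFinOrder_iff_pow_eq_one.1 (isOfFinOrder_of_finite (Units.mk0
        (IntermediateField.AdjoinSimple.gen F x) fun h => hx (congrArg Subtype.val h)))
      exact ⟨k, hk, congrArg (fun u => u.1.1) h⟩
    obtain ⟨e, r', h1, rfl⟩ := Nat.exists_eq_pow_mul_and_not_dvd hr.ne' p pp.out.ne_one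
    rw [ExpChar.pow_prime_pow_mul_eq_one_iff] at h
    obtain ⟨j, hj⟩ := exists_pow_eq_self_of_coprime (x := x) (n := q + 1) (hq ▸ Nat.Coprime.pow_left _
      (Nat.Coprime.coprime_dvd_right (orderOf_dvd_of_pow_eq_one h)
        ((Nat.Prime.coprime_iff_not_dvd pp.out).2 h1)))
    obtain ⟨r, rfl⟩ := Nat.exists_eq_succ_of_ne_zero (n := r') (by rintro rfl; simp at h1)
    have h3 : x * (x ^ (q + 1)) ^ (j * r) = 1 := by rw [pow_mul, hj, ← pow_succ', h]
    refine ⟨j * r + 1, by omega, ?_⟩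
    rw [orbit]
    ext i
    fin_cases i <;> simp [c, h3]
  have k1 : ∀ s : K, s ≠ 0 → (∀ i < k, s * (s ^ (q + 1)) ^ i ≠ 1) → ∀ μ : K,
      aeval (fun i => ![s * (s ^ (q + 1)) ^ k / (s ^ (q + 1)) ^ m, s ^ (q + 1), 1] i * μ ^ 1) g = 0 := by
    intro s hs hi
    obtain ⟨P, h1, -⟩ := poly g (fun _ => 1)
      ![s * (s ^ (q + 1)) ^ k / (s ^ (q + 1)) ^ m, s ^ (q + 1), 1]
    have ha := pow_ne_zero (q + 1) hs
    have hc := c_ne ha k hi
    suffices P = 0 from fun μ => by rw [← h1, this, Polynomial.eval_zero]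
    refine P.eq_zero_of_infinite_isRoot (Set.Infinite.of_image (fun μ => μ ^ 4 ^ m *
      c (s * (s ^ (q + 1)) ^ k / (s ^ (q + 1)) ^ m) (s ^ (q + 1)) m / c s (s ^ (q + 1)) k)
      ((Set.finite_singleton 0).infinite_compl.mono fun t ht => ?_))
    obtain ⟨l, rfl⟩ := IsAlgClosed.exists_pow_nat_eq t (n := 4 ^ k) (by positivity)
    obtain ⟨y, hy, e⟩ := h ((hJ ![l * s, l * s ^ (q + 1), l]).2 (by simp; ring))
    rw [orbit] at e
    have h3 := mul_ne_zero ht hc
    obtain ⟨μ, x, a, rfl⟩ := rep (y := y) fun h2 =>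
      h3 (by simpa using (congrFun e 2).symm.trans (last m y h2))
    rw [orbit] at e
    have e0 := congrFun e 0
    have e1 := congrFun e 1
    have e2 := congrFun e 2
    simp only [Matrix.cons_val] at e0 e1 e2
    rw [e2] at e0 e1
    obtain rfl := mul_left_cancel₀ h3 e1
    obtain rfl := eq_div_of_mul_eq (pow_ne_zero m ha) (mul_left_cancel₀ h3 e0)
    refine ⟨μ, ?_, div_eq_of_eq_mul hc e2⟩
    rw [Set.mem_ofPred_eq, Polynomial.IsRoot, h1, ← hy g hg]
    congr 2
    ext i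
    fin_cases i <;> simp [mul_comm]
  obtain ⟨P, h1, h2⟩ := poly g ![1 + (q + 1) * (k + (q + 1)), (q + 1) * (1 + (m + (q + 1))),
    (q + 1) * (m + (q + 1))] (1 : Fin 3 → K)
  obtain ⟨d, hd⟩ := support_nonempty.2 g0
  have hb : ∀ e ∈ g.support, ∀ i, e i < q + 1 := fun e he i =>
    ((monomial_le_degreeOf i he).trans (degreeOf_le_totalDegree g i)).trans_lt (by omega)
  refine h2 d hd (fun e he h => ?_) (by simp) ?_
  · simp only [Fin.sum_univ_three, Matrix.cons_val] at h
    obtain ⟨a1, a2⟩ := dm (n := q + 1) (b := e 0 * (k + (q + 1)) + (e 1 + (m + (q + 1)) * (e 1 + e 2)))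
      (d := d 0 * (k + (q + 1)) + (d 1 + (m + (q + 1)) * (d 1 + d 2))) (by linear_combination h)
      (hb e he 0) (hb d hd 0)
    rw [a1] at a2
    obtain ⟨a3, a4⟩ := dm (Nat.add_left_cancel a2) (by have := hb e he 1; omega)
      (by have := hb d hd 1; omega)
    ext i
    fin_cases i
    exacts [a1, a3, by simp; omega]
  · have h3 : Polynomial.X * ∏ i ∈ Finset.range k,
        (Polynomial.X ^ (1 + (q + 1) * i) - Polynomial.C (1 : K)) ≠ 0 :=
      mul_ne_zero Polynomial.X_ne_zero (Finset.prod_ne_zero_iff.2 fun i _ =>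
        Polynomial.X_pow_sub_C_ne_zero (by omega) 1)
    refine (mul_eq_zero.1 (Polynomial.funext fun s => ?_)).resolve_right h3
    rw [Polynomial.eval_zero, Polynomial.eval_mul, mul_eq_zero, or_iff_not_imp_right]
    intro hs
    simp only [Polynomial.eval_mul, Polynomial.eval_prod, Polynomial.eval_X, mul_eq_zero, not_or,
      Finset.prod_eq_zero_iff, Finset.mem_range, Polynomial.eval_sub, Polynomial.eval_pow,
      Polynomial.eval_C, sub_eq_zero, not_exists, not_and] at hs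
    rw [h1, ← k1 s hs.1 (fun i hi => by rw [← pow_mul, ← pow_succ', add_comm]; exact hs.2 i hi)
      (s ^ ((q + 1) * (m + (q + 1))))]
    congr 2
    have := hs.1
    ext i
    fin_cases i <;> simp <;> field_simp <;> ring

theorem result (F : Type) [Field F] [Finite F] : ∃ (n : ℕ) (T : Fin n → MvPolynomial (Fin n) F),
    ∀ I, GN (AlgebraicClosure F) T I → ∃ J, GN (AlgebraicClosure F) T J ∧ ∀ k m : ℕ,
      ¬ zeroLocus (AlgebraicClosure F) J ⊆
        (act _ T)^[k] ⁻¹' ((act _ T)^[m] '' zeroLocus (AlgebraicClosure F) I) :=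
  ⟨3, T F, main⟩

end Pool.Agent.Results.MP_b41bf9_ag.NoMax
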